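import Pool.Agent.helper22.GS.Spec

/-!
# Project gs (MP_561ff4_al): module FU (upper bounds)
-/

set_option autoImplicit false

namespace Pool.Agent.GS

open Module

/-- A list of conjugates can be enlarged. -/
theorem FU_mono {S : Type} [Group S] (r k l : ℕ) (x : MulAut S) (hk : 1 ≤ k) (hkl : k ≤ l)
    (h : GenDvd r k x) : GenDvd r l x := by
  obtain ⟨g, hg⟩ := h
  refine ⟨fun i => if h : i.1 < k then g ⟨i.1, h⟩ else g ⟨0, hk⟩, ?_⟩
  have he : (Set.range fun i : Fin l =>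
      MulAut.conj (if h : i.1 < k then g ⟨i.1, h⟩ else g ⟨0, hk⟩) * x *
        (MulAut.conj (if h : i.1 < k then g ⟨i.1, h⟩ else g ⟨0, hk⟩))⁻¹) =
      Set.range fun i => MulAut.conj (g i) * x * (MulAut.conj (g i))⁻¹ := by
    ext z
    constructor
    · rintro ⟨i, rfl⟩
      by_cases hi : i.1 < k
      · exact ⟨⟨i.1, hi⟩, by simp only [dif_pos hi]⟩
      · exact ⟨⟨0, hk⟩, by simp only [dif_neg hi]⟩
    · rintro ⟨i, rfl⟩
      exact ⟨⟨i.1, lt_of_lt_of_le i.2 hkl⟩, by simp only [dif_pos i.2, Fin.eta]⟩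
  rw [he]
  exact hg

/-- Fermat. -/
theorem FU_fermat (q r m : ℕ) (hr : r.Prime) (hr2 : r ≠ 2) (hm : 1 ≤ m)
    (h : r ∣ q ^ (2 * m) - 1) (hq : 1 ≤ q) : 1 ≤ (r - 1) / 2 ∧ 2 * ((r - 1) / 2) = r - 1 ∧
    r ∣ q ^ (2 * ((r - 1) / 2)) - 1 := by
  have hr3 : 3 ≤ r := by
    have := hr.two_le
    omega
  have hodd : r % 2 = 1 := by
    rcases hr.eq_two_or_odd with h | h
    · exact absurd h hr2
    · exact h
  have h2 : 2 * ((r - 1) / 2) = r - 1 := by omega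
  refine ⟨by omega, h2, ?_⟩
  rw [h2]
  have hcop : Nat.Coprime q r := by
    rw [Nat.coprime_comm]
    refine (Nat.Prime.coprime_iff_not_dvd hr).2 fun hd => ?_
    have h1 : r ∣ q ^ (2 * m) := dvd_pow hd (by omega)
    have h3 : 1 ≤ q ^ (2 * m) := Nat.one_le_pow _ _ hq
    have h4 : r ∣ q ^ (2 * m) - (q ^ (2 * m) - 1) := Nat.dvd_sub h1 h
    rw [Nat.sub_sub_self h3] at h4
    have := Nat.le_of_dvd one_pos h4
    omega
  have h5 : q ^ Nat.totient r ≡ 1 [MOD r] := Nat.ModEq.pow_totient hcop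
  rw [Nat.totient_prime hr] at h5
  exact (Nat.modEq_iff_dvd' (Nat.one_le_pow _ _ hq)).1 h5.symm

/-- **FU.** -/
theorem FU (hMAIN : MAIN_stmt) (hMX : MX_stmt) (hF1 : F1_stmt) (hPR : PR_stmt) : FU_stmt := by
  intro n F _ _ hn x hx hx1 r hr hr2
  obtain ⟨A, ψ, ν, hA, hxA⟩ := hx
  obtain ⟨halt, hfr, φ, hφ, hφr, hφv, hMXA⟩ := hMX n F (by omega)
  obtain ⟨y, hy, hyv, -⟩ := hMXA A ψ ν hA
  obtain ⟨hNS, hG⟩ := hF1 n F hn x A ψ ν hA hxA y hy hyv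
  obtain ⟨m1, m2⟩ := hMAIN (BJ n F) halt n hn hfr y ψ ν hy (hNS hx1) r hr hr2
  have hA1 : r ∣ Nat.card F → GenDvd r 2 x := by
    intro h
    obtain ⟨z, hz, hg, hs⟩ := m1 h
    exact hG r 2 z hz hg hs
  have hA2 : ∀ m, 1 ≤ m → m ≤ n → r ∣ Nat.card F ^ (2 * m) - 1 → GenDvd r (2 * m) x := by
    intro m hm1 hmn hd
    obtain ⟨z, hz, hg, hs⟩ := m2 m hmn ⟨hm1, hd⟩
    exact hG r (2 * m) z hz hg hs
  refine ⟨hA1, hA2, fun h => ?_⟩
  have hr3 : 3 ≤ r := by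
    have := hr.two_le
    omega
  rcases hPR n F r (by omega) hr h with h | ⟨m, hm1, hmn, hd⟩
  · exact FU_mono r 2 (r - 1) x (by omega) (by omega) (hA1 h)
  · obtain ⟨f1, f2, f3⟩ := FU_fermat (Nat.card F) r m hr hr2 hm1 hd Nat.card_pos
    by_cases hc : m ≤ (r - 1) / 2
    · exact FU_mono r (2 * m) (r - 1) x (by omega) (by omega) (hA2 m hm1 hmn hd)
    · have := hA2 ((r - 1) / 2) f1 (by omega) f3
      rwa [f2] at this

end Pool.Agent.GS
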